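import Mathlib
import Pool.Agent.N178.HX.Parts
import Pool.Agent.N178.BL.Main

/-!
# The generalized Bloch conjecture for motives of abelian varieties with independent complex
multiplications and of powers of abelian varieties of dimension at most three

Let `X` be a complex abelian variety (`AV`, up to isogeny) in one of the following two classes.

(a) All simple factors of `X` are factors of an abelian variety `A` of dimension at most three (for
instance `X` is a power of `A`).

(b) There are finitely many CM types `T k`, divided into independent blocks, such that for each block
all CM types of the CM fields in this block are conjugate, or the total dimension of the block is at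
most three, or the block consists of all CM types of a Galois CM field of degree at most six; and
each simple factor of `X` is a factor of one of the abelian varieties with the CM types `T k`, or has
no complex multiplication and belongs to one of the classes in `Typ` below (of any dimension), where
an imaginary quadratic field which acts with two different multiplicities on the tangent space must
be the field of an elliptic curve of the first kind (fourfolds with such an action are excluded).

Let `M = (X, p)` be a direct summand of the Chow motive of `X`. For example, `M` can be the motive of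
a smooth projective variety `Y` which is the image of `X`, or the image of a product of curves of
positive genus such that the product of their Jacobians is `X` (the motive of such a product of
curves is a direct summand of the motive of the product of the Jacobians).

The theorem: if the Hodge coniveau of `M` is at least `c`, that is, if the Hodge numbers `h^(s, t)` of
`M` are zero for all `s ≠ t` with `s < c` or `t < c`, then the homologically trivial cycles of
dimension less than `c` on `M` are rationally equivalent to zero. More precisely, `p` is a sum of
compositions `κ ∘ Γ`, where `Γ` is a correspondence of degree `-c` from `X` to an abelian variety `Y`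
and `κ` is a correspondence of degree `c` from `Y` to `X`; or `Y` is a point and the degrees are `-r`
and `r` with `r < c`. So `M` is a direct summand of a sum of Tate motives `𝟙(r)`, `r < c`, and of
motives `h(Y)(c)`, where `Y` is an abelian variety (in the covariant notation).

The structure `ChowTheory` (`Pool.Agent.N178.BL.Defs`) collects the known properties of the Chow
groups of complex abelian varieties which are used: the formal properties of correspondences; Kimura's
theorem that homologically trivial endomorphisms of the motive are nilpotent; the semisimplicity of
the category of motives of abelian varieties modulo homological equivalence (Jannsen, Lieberman); the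
algebraic classes are a system `Sys` (Lefschetz, Markman); and the algebraicity of the isomorphisms
`H^n(Y, ℚ) ≅ H_n(Y, ℚ)` given by a polarization (Lieberman).

The proof: the abelian varieties in the classes (a) and (b) satisfy the generalized Hodge conjecture
(`Pool.Agent.Results.MP_90e98f_ag.PowersAndCMFields`), so the cohomology of `M` is contained in the
sum of the images of correspondences of degree `-c` (and of Tate classes). Since the category of
motives modulo homological equivalence is semisimple, `p` is homologically equivalent to a sum `q` of
compositions as above. Now `p - p ∘ q ∘ p` is nilpotent, hence `p` is of this form. A correspondence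
of degree `-c` from `X` to `Y` maps cycles of dimension less than `c` to zero.
-/

namespace Pool.Agent.Results.MP_13bc1c_ag.AbelianMotives

open Module NumberField Pool.Agent.Y90 Pool.Agent.R915
open Pool.Agent.H204R3.CM (IsCMType)
open Pool.Agent.W547.KB (CMPair CMAV single)
open Pool.Agent.W547.LN (SameType)
open Pool.Agent.N830.HC (av)
open Pool.Agent.N178.BL (ChowTheory)

/-- The classes of simple abelian varieties: dimension at most three; or the endomorphism algebra is
an imaginary quadratic field of signature `(p, q)` with `p, q ≤ 3` (and trivial discriminant for
`(3, 3)`); or Albert type I or II of relative dimension at most three; or dimension five and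
endomorphism algebra `ℚ`; or Albert type I or II, any dimension, with the largest possible Hodge
group. -/
def Typ (Y : AV) : Prop :=
  finrank ℚ Y.H ≤ 6 ∨ QuadMult Y ∨ RealMult Y ∨ FiveDim Y ∨ FullHodge Y

/-- Each simple factor `Y` of `X` is a factor of an abelian variety with one of the CM types `T k`; or
it has no complex multiplication, belongs to one of the classes in `Typ`, and if `ℚ(√-d)` acts on `Y`
with two different multiplicities then `Y` is not a fourfold and the elliptic curve `E` with complex
multiplication by this field is a factor of an abelian variety with one of the CM types `T k`. -/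
def HasFactorsIn {K : Type} (T : K → CMPair) (X : AV) : Prop :=
  ∀ Y, IsFactor Y X → (∃ k, IsFactor Y (av (single (T k)))) ∨ (¬ HasCMult Y ∧ Typ Y ∧
    ∀ d : ℚ, Unbalanced Y d → finrank ℚ Y.H ≠ 8 ∧
      ∃ k E, IsFactor E (av (single (T k))) ∧ finrank ℚ E.H = 2 ∧ Unbalanced E d)

/-- All CM types of the CM fields in the block `B` are conjugate, simultaneously: for each family of
CM types `Ψ k` of the CM fields there is an automorphism of `ℂ` which takes `Ψ k` to the CM type
`T k`, for all `k` in `B`. -/
def AllConjugate {K : Type} (T : K → CMPair) (B : Set K) : Prop :=
  ∀ Ψ : ∀ k, Set ((T k).E →+* ℂ), (∀ k, IsCMType (Ψ k)) →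
    ∃ σ : ℂ ≃+* ℂ, ∀ k ∈ B, ∀ φ, φ ∈ Ψ k ↔ (σ : ℂ →+* ℂ).comp φ ∈ (T k).Φ

/-- The CM fields of the block `B` are subfields of the Galois CM field `L`, and all CM types of `L`
occur. -/
def AllTypes {K : Type} (T : K → CMPair) (B : Set K) (L : Type) [Field L] [NumberField L]
    [IsCMField L] : Prop :=
  IsGalois ℚ L ∧ (∀ k ∈ B, Nonempty ((T k).E →+* L)) ∧
    ∀ (Φ : Set (L →+* ℂ)) (hΦ : IsCMType Φ), ∃ k ∈ B, SameType ⟨L, Φ, hΦ⟩ (T k)

/-- The total dimension of the block is at most three. -/
def DimAtMostThree {K : Type} (T : K → CMPair) (B : Set K) : Prop :=
  ∃ F : Finset K, (∀ k, k ∈ F ↔ k ∈ B) ∧ ∑ k ∈ F, finrank ℚ (T k).E ≤ 6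

/-- The blocks `{k | b k = j}` are independent: automorphisms of `ℂ` can be prescribed separately on
the complex embeddings of the CM fields of the different blocks. (The composita of the Galois
closures of the fields of the different blocks are linearly disjoint over `ℚ`.) -/
def IsIndependent {K J : Type} (T : K → CMPair) (b : K → J) : Prop :=
  ∀ τ : J → (ℂ ≃+* ℂ), ∃ σ : ℂ ≃+* ℂ, ∀ k (φ : (T k).E →+* ℂ),
    (σ : ℂ →+* ℂ).comp φ = (τ (b k) : ℂ →+* ℂ).comp φ

/-- The condition on the block `B`. -/
def IsGoodBlock {K : Type} (T : K → CMPair) (B : Set K) : Prop :=
  AllConjugate T B ∨ (∃ (L : Type) (_ : Field L) (_ : NumberField L) (_ : IsCMField L),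
    AllTypes T B L ∧ finrank ℚ L ≤ 6) ∨ DimAtMostThree T B

/-- The classes (a) and (b) of abelian varieties. -/
def IsGood (X : AV) : Prop :=
  (∃ A : AV, finrank ℚ A.H ≤ 6 ∧ ∀ Y, IsFactor Y X → IsFactor Y A) ∨
    ∃ (K J : Type) (_ : Fintype K) (T : K → CMPair) (b : K → J), IsIndependent T b ∧
      (∀ j, IsGoodBlock T {k | b k = j}) ∧ HasFactorsIn T X

/-- The sums of compositions `κ ∘ Γ`, where `Γ` is a correspondence of degree `-c` from `X` to an
abelian variety `Y` and `κ` a correspondence of degree `c` from `Y` to `X`; or `Y` is a point and the
degrees are `-r` and `r`, where `r < c`. -/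
def throughTwists (C : ChowTheory) (X : AV) (c : ℕ) : AddSubgroup (C.Co X X) :=
  AddSubgroup.closure {q | ∃ (Y : AV) (r : ℤ) (Γ : C.Co X Y) (κ : C.Co Y X),
    (r = c ∨ (r < c ∧ finrank ℚ Y.H = 0)) ∧ C.IsDeg (-r) Γ ∧ C.IsDeg r κ ∧ q = C.o κ Γ}

/-- **The generalized Bloch conjecture for the direct summands `(X, p)` of the Chow motives of the
abelian varieties `X` in the classes (a), (b)**: if the Hodge coniveau is at least `c`, then each
homologically trivial cycle `z` of dimension `i < c` on the motive is rationally equivalent to zero
(the cycles on `X` are the correspondences from a point `O` to `X`); more precisely `p` is a sum of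
compositions as in `throughTwists`. -/
theorem result (C : ChowTheory) (X : AV) (hX : IsGood X) (p : C.Co X X) (hp : C.IsMotive p) (c : ℕ)
    (hc : C.HasConiveau p c) :
    p ∈ throughTwists C X c ∧ ∀ (O : AV) (i : ℤ) (z : C.Co O X), finrank ℚ O.H = 0 → i < c →
      C.IsDeg i z → C.o p z = z → (∀ ω, C.pb z ω = 0) → z = 0 := by
  have hG : Pool.Agent.N178.HX.GHC C.alg X := by
    rcases hX with ⟨A, hA, hX⟩ | ⟨K, J, _, T, b, hb, hj, hX⟩
    · exact Pool.Agent.N178.HX.pow3 Pool.Agent.N178.HX.t_MAINT Pool.Agent.N178.HX.t_COV
        Pool.Agent.N178.HX.t_POW A X hA hX C.alg
    · exact Pool.Agent.N178.HX.uncond' Pool.Agent.N178.HX.t_MAINT Pool.Agent.N178.HX.t_COV T b hb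
        hj C.alg X hX
  have h := Pool.Agent.N178.BL.mem_Fac hG hp hc
  exact ⟨h, fun O i z hO hi hz hpz h0 => Pool.Agent.N178.BL.cycle_zero h hO hi hz hpz h0⟩

end Pool.Agent.Results.MP_13bc1c_ag.AbelianMotives
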