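import Mathlib
import Pool.Agent.N998.ZS.Coords

/-!
# Coniveau `c` for all Fermat varieties with `c m ≤ 2 n + 1`

Let `X` be the Fermat variety `x₀ ^ m + ... + x_{n+1} ^ m = 0` of degree `m` and dimension `n`. Its
primitive motive is the direct sum of motives `V (a)` (with coefficients in `ℚ (ζ_m)`), one for each
family `a` of `n + 2` nonzero residues modulo `m` with sum zero. Write `⟨a⟩` for the sum of the least
positive residues of the `a i`, divided by `m`. Then `V (a)` has Hodge type `(n + 1 - ⟨a⟩, ⟨a⟩ - 1)`.
The motive `V [a] = ⨁ V (t a)`, where `t` runs over the units modulo `m`, is defined over `ℚ`; it has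
Hodge coniveau at least `c` if and only if `⟨t a⟩ ≥ c + 1` for all units `t`.

We prove: if `c m ≤ 2 n + 1`, this is the case if and only if the set of the coordinates can be
partitioned in `c + 1` nonempty blocks such that the `a i` of each block have sum zero.

By the inductive structure of Fermat varieties (Shioda and Katsura), which consists of
correspondences of Chow motives, `V (a)` is then the tensor product of the motives
of the blocks, which belong to Fermat varieties of smaller dimension, with a twist by `-c`. So
the Chow groups of cycles of dimension less than `c` of the motive `V [a]` vanish, as the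
generalized Bloch conjecture predicts, and `V [a]` is supported in codimension `c`, as the
generalized Hodge conjecture predicts.
-/

namespace Pool.Agent.Results.MP_13bc1c_ag.FermatConiveau

open Finset

/-- Let `a` be a family of nonzero residues modulo `m` with sum zero, indexed by a finite set with
`k` elements, and let `c` be a natural number with `c m + 3 ≤ 2 k`. (For `k = n + 2`, the characters
of a Fermat variety of degree `m` and dimension `n`, this is the inequality `c m ≤ 2 n + 1`.) The
index set has a partition in `c + 1` nonempty blocks over which the `a i` have sum zero if and only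
if for all units `t` modulo `m` the sum of the least positive residues of the `t a i` is at least
`(c + 1) m`. -/
theorem result {m : ℕ} [NeZero m] {ι : Type} [Fintype ι] [DecidableEq ι] (a : ι → ZMod m)
    (h0 : ∀ i, a i ≠ 0) (hs : ∑ i, a i = 0) (c : ℕ) (hc : c * m + 3 ≤ 2 * Fintype.card ι) :
    (∃ P : Finpartition (univ : Finset ι), #P.parts = c + 1 ∧ ∀ T ∈ P.parts, ∑ i ∈ T, a i = 0) ↔
      ∀ t : (ZMod m)ˣ, (c + 1) * m ≤ ∑ i, ((t : ZMod m) * a i).val :=
  Pool.Agent.N998.ZS.finpartition_iff a h0 hs c hc

end Pool.Agent.Results.MP_13bc1c_ag.FermatConiveau
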