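import Pool.Agent.N64.AF.X14

/-!
# The generalized Bloch conjecture and the size of the Griffiths groups of the powers

`g (X)` is the dimension of the space of the homologically trivial cycles on `X` (all codimensions, rational coefficients)
modulo the smash nilpotent ones. As algebraically trivial cycles are smash nilpotent (Voevodsky,
Voisin), `g (X) ≤ dim Griff^*(X) ⊗ ℚ`, where `Griff` is the group of homologically trivial cycles modulo
algebraic equivalence.

(2) Let `Y` be a smooth projective variety all of whose rational cohomology is spanned by classes of algebraic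
cycles, and `b` its total Betti number. Examples: surfaces with `p_g = q = 0` (by Lefschetz (1,1)),
where `b = 2 + b_2`, and their products. Such a `Y` has Hodge coniveau `≥ c` for every `c`, so that the
generalized Bloch conjecture predicts that all homologically trivial cycles on `Y` are zero in `CH^*(Y) ⊗ ℚ`.
Theorem: all homologically trivial cycles on all powers of `Y` are zero if and only if for ONE `n`
  `g (Y^n) < ((b + 1)^n + (b - 1)^n) / 2 - b^n`.
For a surface this is, by Bloch and Srinivas, equivalent to Bloch's conjecture `A_0^hom (Y) = 0`. Hence
Bloch's conjecture holds for a surface `S` with `p_g = q = 0` if and only if for ONE `n` the dimension of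
`Griff^*(S^n) ⊗ ℚ` is less than `((b + 1)^n + (b - 1)^n) / 2 - b^n`; e.g. (`n = 3`) less than `3 b`,
that is `33` for a numerical Godeaux surface. If Bloch's conjecture fails for `S` then
`dim Griff^*(S^n) ⊗ ℚ ≥ ((b + 1)^n + (b - 1)^n) / 2 - b^n` for ALL `n`, while the rank of the
cycles modulo homological equivalence is `b^n`.

(1) Let `P` be a self-dual direct factor of the motive of `X` with realisation `0` (a phantom) and let
`r (n)` be the rank of the cycles on `X^n` modulo numerical equivalence. If `P ≠ 0` then
`g (X^n) ≥ ∑ C(n, t) r (n - t)`, where `t` runs through the even numbers `0 < t ≤ n`, for ALL `n`. Example: `X = S`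
a surface with `p_g = 0` and `q` arbitrary, `P` the transcendental part of the motive (Murre,
Kahn-Murre-Pedrini); `P = 0` if and only if Bloch's conjecture holds for `S`, i.e. the Albanese kernel is zero. No conjecture
is assumed.

The setting: `C` is the category of smooth projective varieties over a field with direct factors, the
morphisms are the correspondences of all degrees with coefficients in a field `Λ` of characteristic
zero, `T = h(X)`, `tp T n = h(X^n)`, `Hom(1, tp T n) = CH^*(X^n)`, `R` is a Weil cohomology. The pairing
`T ⊗ T → 1` is given by the diagonal; it is symmetric.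

Idea of the proof. (1) `T = T₀ ⊕ P`, so that `T^n` is the sum of `C(n, t)` copies of `T₀^{n - t} ⊗ P^t`. As
`P` is a direct factor of `P ⊗ P ⊗ P`, for even `t > 0` the last object contains `T₀^{n - t} ⊗ P ⊗ P`. If
`α` is a class on `T^{n - t}` which is not numerically trivial, then the homologically trivial class
`α × (the class of the identity of P)` is not smash nilpotent: a contraction with `α` would give that the
identity of `P` is smash nilpotent, hence nilpotent, i.e. `P = 0`. (2) A basis of the classes modulo
numerical equivalence has a symmetric invertible Gram matrix; it gives a decomposition `T = T₀ ⊕ P`, `P` self-dual with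
`H (P) = 0`, and `r (n) = b^n`. Now apply (1). If `P = 0` then `T` is a sum of unit objects and all
homologically trivial classes on the powers are zero.

Known: equivalence of Bloch's conjecture for these surfaces with finite-dimensionality, and with the
vanishing of `g (S × S)` (Kimura, Voevodsky; `n = 2` in (2)). Compare the one-inequality criteria for
nilpotence of helper64 (MP_fc2ced_ag, MP_8a7054_ag): there `(a + 1) r (a)` classes on `X^{a + 2}`
are obtained from a non-nilpotent endomorphism; here exponentially more.

Authors: helper64, and, for the lemmas on numerical equivalence and smash nilpotence used here, helper136,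
helper327, helper199, helper216, helper833, helper322.
-/

set_option autoImplicit false

open CategoryTheory MonoidalCategory Module
open Pool.Agent.Y112.SR Pool.Agent.Y112.KD Pool.Agent.N64.AF

namespace Pool.Agent.Results.MP_13bc1c_ag.PhantomGrowth

universe v u w t

/-- Phantoms and the growth of the homologically trivial classes modulo the smash nilpotent ones. -/
theorem result {C : Type u} [Category.{v} C] [Preadditive C] [MonoidalCategory C]
    [MonoidalPreadditive C] [SymmetricCategory C] [RightRigidCategory C]
    {Λ : Type t} [Field Λ] [CharZero Λ] [Linear Λ C] [MonoidalLinear Λ C]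
    {K : Type w} [Field K] [IsAlgClosed K] [Algebra Λ K] (R : SuperRealisation C K)
    (hR : IsReal Λ R) :
    (∀ (T T₀ P : C) [ExactPairing P P] (j : T₀ ⟶ T) (q : T ⟶ T₀) (i : P ⟶ T) (p : T ⟶ P),
      j ≫ q = 𝟙 T₀ → i ≫ p = 𝟙 P → j ≫ p = 0 → i ≫ q = 0 → q ≫ j + p ≫ i = 𝟙 T →
      R.H.map (𝟙 P) = 0 → 𝟙 P ≠ 0 →
      ∀ n : ℕ, (evenSum (fun a => numRank Λ (tp T a)) n : ℕ∞) ≤ hsDim hR T n) ∧
    (∀ [IsIdempotentComplete C] (T : C) [ExactPairing T T],
      (β_ T T).hom ≫ ε_ T T = ε_ T T → numRank Λ T = bt R T →
      ((∃ n : ℕ, hsDim hR T n < evenSum (fun a => bt R T ^ a) n) ↔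
        ∀ (n : ℕ) (α : 𝟙_ C ⟶ tp T n), R.H.map α = 0 → α = 0)) ∧
    ∀ b n : ℕ, 0 < b → 2 * (evenSum (fun a => b ^ a) n + b ^ n) = (b + 1) ^ n + (b - 1) ^ n :=
  ⟨fun _ _ _ _ j q i p h1 h2 h3 h4 h5 hP hne n => phantom_growth hR j q i p h1 h2 h3 h4 h5 hP hne n,
    fun _ _ hs halg => algebraic_one hR hs halg, evenSum_pow⟩

end Pool.Agent.Results.MP_13bc1c_ag.PhantomGrowth
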