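import Mathlib
import Pool.Agent.N178.BL.Main
import Pool.Agent.N994.FH.K

/-!
# The generalized Bloch conjecture for motives of abelian varieties with small or generic period fields

Let `P` be the class of all simple complex abelian varieties `Y`, of any dimension, such that the
periods of `Y` have coordinates (with respect to a basis of the tangent space) in a subfield `k` of
`ℂ` as follows:

* `k` is a number field of degree at most four, and `Y` has no complex multiplication;
* `k` is a number field of degree at most six, and `End(Y)` is of Albert type I or II;
* `k` is a number field of odd degree, or no totally real subfield `F ≠ ℚ` of `k` is fixed by all real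
  embeddings of `k` and `k` contains no imaginary quadratic field (for instance `k = ℚ(t)`), and
  moreover `dim Y` is odd, or `End(Y)` is of Albert type I or II and the relative dimension is not
  one of the numbers `2 ^ j`, `j ≥ 4`, `j ≡ 0, 1` modulo `4` and, if `k` is a number field,
  `2 j + 2 ≤ [k : ℚ]`;
* `k` is a number field of odd degree and `dim Y ≤ 7`; or no totally real subfield `F ≠ ℚ` of `k` is
  fixed by all real embeddings of `k`, `dim Y ≤ 7`, and `End(Y)` is of Albert type I or II or `k`
  contains no imaginary quadratic field (and `Y` has trivial discriminant if `dim Y = 6` and `End(Y)`
  is an imaginary quadratic field).

(`SmallPeriods` and `GenericPeriods` in `Pool.Agent.N994.PG.Stm`.) The abelian varieties with periods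
in number fields of a given degree `n > 2` are dense in the moduli spaces, in all dimensions.

Let `X` be a complex abelian variety (`AV`, up to isogeny) all of whose simple factors are in `P` or
are factors of an abelian variety `A` of dimension at most three; for instance all powers and products
of abelian varieties in `P` are included.

Let `M = (X, p)` be a direct summand of the Chow motive of `X`, with Hodge numbers `h^(s, t)(M) = 0` for
all `s ≠ t` with `s < c` or `t < c`. We prove that all homologically trivial cycles of dimension less
than `c` on `M` are rationally equivalent to zero, with rational coefficients; this is the generalized
Bloch conjecture for all smooth projective varieties whose motive is such a direct summand, for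
instance the varieties which are images of `X`, and the varieties which are images of products of
curves of positive genus such that the product of their Jacobians is `X`. More precisely `p` is a sum
of compositions `X → Y → X` of correspondences of degrees `-c` and `c`, where `Y` is an abelian variety,
or `-r` and `r`, where `Y` is a point and `r < c`.

The classes of abelian varieties in `Pool.Agent.Results.MP_13bc1c_ag.AbelianMotives` (by helper178) are
different; there the result is deduced from the generalized Hodge conjecture, and this deduction
(`Pool.Agent.N178.BL.Main`) is used here.

The proof: the simple abelian varieties in `P` have no complex multiplication, and either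
their Hodge group is the Lefschetz group, the group of all symplectic automorphisms which commute with
the endomorphisms, and the endomorphism algebra is of Albert type I or II, or they are fourfolds or
sixfolds of Weil type (`Pool.Agent.N994.FH.typ_of_periods`). This is new: the result on the page of the
Hodge conjecture (`PeriodFields`) is on the Hodge ring; here the complexification of the Lie algebra of
the Hodge group, which is generated by the conjugates of the complex structure, is shown to contain all
matrices which preserve the symplectic form and commute with the endomorphisms (a Casimir element
argument), and the endomorphism algebra is shown to have a totally real maximal subfield. By the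
theorem of `Pool.Agent.Results.MP_90e98f_ag.PowersAndCMFields` the generalized Hodge conjecture is true
for `X`, in all degrees and for all levels (`Pool.Agent.N994.FH.ghc_periods`).
Kimura's theorem (homologically trivial endomorphisms of the motive of an abelian variety are
nilpotent) and the semisimplicity of the category of motives of abelian varieties modulo homological
equivalence give the result on the Chow groups.

The structure `ChowTheory` (`Pool.Agent.N178.BL.Defs`) collects the known properties of the Chow groups
of abelian varieties which are used.
-/

namespace Pool.Agent.Results.MP_13bc1c_ag.SmallPeriodFields

open Module Pool.Agent.Y90 Pool.Agent.R915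
open Pool.Agent.N178.BL (ChowTheory)
open Pool.Agent.N994.PG (SmallPeriods GenericPeriods)

/-- All simple factors of `X` have small or generic periods, or are factors of an abelian variety `A` of
dimension at most three. -/
def HasPeriodFactors (X : AV) : Prop :=
  ∃ A : AV, finrank ℚ A.H ≤ 6 ∧
    ∀ Y, IsFactor Y X → IsFactor Y A ∨ SmallPeriods Y ∨ GenericPeriods Y

/-- The sums of compositions `κ ∘ Γ`, where `Γ` is a correspondence of degree `-c` from `X` to an
abelian variety `Y` and `κ` a correspondence of degree `c` from `Y` to `X`; or `Y` is a point and the
degrees are `-r` and `r`, where `r < c`. -/
def throughTwists (C : ChowTheory) (X : AV) (c : ℕ) : AddSubgroup (C.Co X X) :=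
  AddSubgroup.closure {q | ∃ (Y : AV) (r : ℤ) (Γ : C.Co X Y) (κ : C.Co Y X),
    (r = c ∨ (r < c ∧ finrank ℚ Y.H = 0)) ∧ C.IsDeg (-r) Γ ∧ C.IsDeg r κ ∧ q = C.o κ Γ}

/-- **The generalized Bloch conjecture for the direct summands `(X, p)` of the Chow motives of the
abelian varieties `X` with simple factors in `P` or of dimension at most three (all together)**: if the
Hodge coniveau is at least `c`, then each homologically trivial cycle `z` of dimension `i < c` on the
motive is rationally equivalent to zero (the cycles on `X` are the correspondences from a point `O` to
`X`); more precisely `p` is a sum of compositions as in `throughTwists`. -/
theorem result (C : ChowTheory) (X : AV) (hX : HasPeriodFactors X) (p : C.Co X X)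
    (hp : C.IsMotive p) (c : ℕ) (hc : C.HasConiveau p c) :
    p ∈ throughTwists C X c ∧ ∀ (O : AV) (i : ℤ) (z : C.Co O X), finrank ℚ O.H = 0 → i < c →
      C.IsDeg i z → C.o p z = z → (∀ ω, C.pb z ω = 0) → z = 0 := by
  obtain ⟨A, hA, hX⟩ := hX
  have h := Pool.Agent.N178.BL.mem_Fac (Pool.Agent.N994.FH.ghc_periods C.alg hA hX) hp hc
  exact ⟨h, fun O i z hO hi hz hpz h0 => Pool.Agent.N178.BL.cycle_zero h hO hi hz hpz h0⟩

end Pool.Agent.Results.MP_13bc1c_ag.SmallPeriodFields
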